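import Pool.Agent.T9h51.LR.QR

/-!
# Weighted level of distribution, almost the full range, for almost all residues given by local conditions

The residues `a` are `c + κ v`, where the residues of `v` modulo the prime factors of an integer `q` of the size of `N` (up
to a power of the logarithm) lie in given sets, or more generally are independent of each other. The most important example:
the integers `v < q` which are quadratic residues modulo all the prime factors of `q`, for instance modulo all the primes up
to `log N` (if `q` is their product); these are about `N exp (- c log N / log log N)` integers, less than `N / log ^ A N` for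
every `A`, and they are not equidistributed modulo small primes.

Definitions used (in `Pool.Agent.T9h51.LR`):
* `Flat m δ y`: `|∑ i, exp (2 π i h y_i / m)| ≤ δ #ι` for all integers `h` not divisible by `m`;
* `Local η p₀ J ι y`: all `m ∈ J` are at least `2`, and `Flat m (m ^ (-η)) (y m)` for all `m ∈ J` with `m > p₀`;
* `S q A`: the integers `0 ≤ v < q` with `v mod l ∈ A l` for all the prime factors `l` of `q`;
* `Regular η l A`: (i) `Flat l (l ^ (-η))` for the elements of `A`, or (ii) `A` is a coset of a subgroup of the multiplicative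
  group with at least `l ^ (1 / 2 + η)` elements, or (iii) at most `l ^ (1 - 2 η)` residues are not in `A`;
* `QR q`: the integers `0 ≤ v < q` which are quadratic residues prime to `l` modulo all the odd prime factors `l` of `q`;
* `LevelOfDistribution K B T U N a`: the weighted level of distribution of the primes for the family `a i` of residues, see
  the definition: with arbitrary weights up to `(τ(d) log N) ^ T` and with arbitrary heights `x(d) ≤ B N`, for
  `d ≤ N / exp (K (log log N) ^ 2)`.

The proof: the additive energy of a high order of such a family is nearly minimal, since it is at most the product of the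
energies modulo the `m ∈ J`; the passage from the energy to the level of distribution is from the starting files
(`Pool.Agent.TH212.EH`).
-/

set_option autoImplicit false

namespace Pool.Agent.Results.MP_188a10_nt.LocalConditions

open Finset
open Pool.Agent.T9h51.LR

/-- **Weighted level of distribution for residues given by local conditions.** Let `η > 0`, `κ ≠ 0`, `p₀`, `B`, `C`, `T`, `U`
be fixed. There are `K` and `N₀` such that for all `N ≥ N₀` and all integers `c` with `|c| ≤ B N` the following families of
residues `a` have the weighted level of distribution `N / exp (K (log log N) ^ 2)`: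

(1) `a = c + κ v_i`, where the `v_i`, `|v_i| ≤ B N`, are integers whose residues modulo the elements `m` of a finite set `J`
with `∏ m ≥ N / log ^ C N` are independent of each other: `v_i ≡ y_m(i_m)` modulo `m`, the index `i` is a vector of arbitrary
indices `i_m`, and for `m > p₀` the Fourier coefficients of the residues `y_m` modulo `m` are at most `m ^ (-η)`;

(2) `a = c + κ v`, `v ∈ S q A`, where `N / log ^ C N ≤ q ≤ B N`, `q` is squarefree and the sets `A l` of residues modulo the
prime factors `l > p₀` of `q` are regular (for `l ≤ p₀` they are arbitrary);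

(3) in particular `a = c + κ v`, where `v` runs through all the integers `0 ≤ v < q` which are quadratic residues modulo all
the odd prime factors of `q`, for squarefree `q` with `N / log ^ C N ≤ q ≤ B N`. -/
theorem result (κ : ℤ) (hκ : κ ≠ 0) (B C T U : ℕ) :
    (∀ (η : ℝ), 0 < η → ∀ p₀ : ℕ, ∃ K N₀ : ℕ, ∀ N : ℕ, N₀ ≤ N → ∀ c : ℤ, |c| ≤ B * N →
      (∀ (J : Finset ℕ) (ι : ℕ → Type) [∀ m, Fintype (ι m)] (y : ∀ m, ι m → ZMod m), Local η p₀ J ι y →
        (N : ℝ) ≤ (∏ m ∈ J, m : ℕ) * Real.log N ^ C → ∀ v : (∀ m : J, ι m) → ℤ,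
        (∀ i, |v i| ≤ B * N) → (∀ i, ∀ m : J, ((v i : ℤ) : ZMod m) = y m (i m)) →
        LevelOfDistribution K B T U N (fun i => c + κ * v i)) ∧
      (∀ q : ℕ, Squarefree q → (N : ℝ) ≤ q * Real.log N ^ C → q ≤ B * N → ∀ A : ∀ l : ℕ, Finset (ZMod l),
        (∀ l ∈ q.primeFactors, p₀ < l → Regular η l (A l)) →
        LevelOfDistribution K B T U N (fun v : {v // v ∈ S q A} => c + κ * ((v.1 : ℕ) : ℤ)))) ∧
    (∃ K N₀ : ℕ, ∀ N : ℕ, N₀ ≤ N → ∀ c : ℤ, |c| ≤ B * N → ∀ q : ℕ, Squarefree q → (N : ℝ) ≤ q * Real.log N ^ C →
      q ≤ B * N → LevelOfDistribution K B T U N (fun v : {v // v ∈ QR q} => c + κ * ((v.1 : ℕ) : ℤ))) := by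
  have hsets : ∀ (η : ℝ), 0 < η → ∀ p₀ : ℕ, ∃ K N₀ : ℕ, ∀ N : ℕ, N₀ ≤ N → ∀ c : ℤ, |c| ≤ B * N →
      (∀ (J : Finset ℕ) (ι : ℕ → Type) [∀ m, Fintype (ι m)] (y : ∀ m, ι m → ZMod m), Local η p₀ J ι y →
        (N : ℝ) ≤ (∏ m ∈ J, m : ℕ) * Real.log N ^ C → ∀ v : (∀ m : J, ι m) → ℤ,
        (∀ i, |v i| ≤ B * N) → (∀ i, ∀ m : J, ((v i : ℤ) : ZMod m) = y m (i m)) →
        LevelOfDistribution K B T U N (fun i => c + κ * v i)) ∧
      (∀ q : ℕ, Squarefree q → (N : ℝ) ≤ q * Real.log N ^ C → q ≤ B * N → ∀ A : ∀ l : ℕ, Finset (ZMod l),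
        (∀ l ∈ q.primeFactors, p₀ < l → Regular η l (A l)) →
        LevelOfDistribution K B T U N (fun v : {v // v ∈ S q A} => c + κ * ((v.1 : ℕ) : ℤ))) := by
    intro η hη p₀
    obtain ⟨k1, n1, -, h1⟩ := local_energy η hη p₀ C
    obtain ⟨k2, n2, -, h2⟩ := set_energy η hη p₀ C
    obtain ⟨K1, m1, e1⟩ := level_of_energy k1 B (B + κ.natAbs * B) (C + 1) T U (Nat.le_add_right _ _)
    obtain ⟨K2, m2, e2⟩ := level_of_energy k2 B (B + κ.natAbs * B) (C + 1) T U (Nat.le_add_right _ _)
    refine ⟨max K1 K2, n1 + n2 + m1 + m2, fun N hN c hc => ⟨?_, ?_⟩⟩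
    · intro J ι _ y hL hJ v hvB hv
      refine (e1 N (by omega) _ _ (fun i => val_le B N c κ (v i) hc (hvB i))
        (h1 N (by omega) J ι y hL hJ v hv c κ hκ)).mono (le_max_left _ _)
    · intro q hq hqN hqB A hA
      refine (e2 N (by omega) _ _ (fun v => val_le B N c κ _ hc ?_)
        (h2 N (by omega) q hq hqN A hA c κ hκ)).mono (le_max_right _ _)
      have h3 : v.1 < q := by
        have := v.2
        unfold S at this
        rw [mem_filter, mem_range] at this
        exact this.1
      rw [abs_of_nonneg (Int.natCast_nonneg _)]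
      exact_mod_cast (by omega : v.1 ≤ B * N)
  refine ⟨hsets, ?_⟩
  obtain ⟨K, N₀, h⟩ := hsets (1 / 4) (by norm_num) 256
  refine ⟨K, N₀, fun N hN c hc q hq hqN hqB => ?_⟩
  have h1 := (h N hN c hc).2 q hq hqN hqB sqs (fun l hl hl2 =>
    sqs_regular l (Nat.prime_of_mem_primeFactors hl) hl2)
  rw [QR_eq]
  exact h1

end Pool.Agent.Results.MP_188a10_nt.LocalConditions
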