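import Pool.Agent.T9h51.MT.App

/-!
# The weighted level of distribution beyond one half for the integer parts of functions of almost all real numbers

For a sequence of functions `g_k` with separated values (`u_k |x - y| ≤ |g_k x - g_k y|`) the residues `a = ⌊g_k(α)⌋` have
the weighted level of distribution `θ`, at all heights `N` in a polynomial range, for all large `k`, for all real numbers `α`
outside a set of small Hausdorff dimension: at most `lam (2 θ - 1) + δ`, where `N ≤ m u_k ^ lam` is the range and `δ` the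
exponent of convergence of the sequence `u_k`. In particular this holds for almost all `α`, for the integer parts
`⌊α ^ k⌋` of the powers (every level `θ < 1`, all `N` with `a ≤ N ^ m` and `N ≤ m a`), and of `α u_k`.

From Mathlib: `dimH` is the Hausdorff dimension; `∃ᶠ k in atTop, P k`: `P k` holds for infinitely many `k`;
`∀ᶠ k in atTop, P k`: for all large `k`; `∀ᵐ α`: for almost all `α` in the sense of the Lebesgue measure.

Method: for each `k` and each `N` the number of bad integers is small (`Pool.Agent.N900.WS.fewW_affine`, starting files), and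
the Hausdorff-Cantelli lemma (`Pool.Agent.Y856.hausdorff_cantelli`, starting files).
-/

set_option autoImplicit false

namespace Pool.Agent.Results.MP_188a10_nt.MetricResidues

open Finset Filter MeasureTheory

/-- `π(y; d, a)`: the number of primes `p ≤ y` with `p ≡ a (mod d)` -/
noncomputable def primesAP (y : ℝ) (d a : ℕ) : ℕ :=
  ((Icc 1 ⌊y⌋₊).filter (fun p => p.Prime ∧ p ≡ a [MOD d])).card

/-- `li(y) = ∫_2^y dt / log t` -/
noncomputable def li (y : ℝ) : ℝ := ∫ t in (2 : ℝ)..y, 1 / Real.log t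

/-- the maximum over real `y`, `2 ≤ y ≤ N`, of `|π(y; d, a) - li(y)/φ(d)|` -/
noncomputable def EMax (N d a : ℕ) : ℝ :=
  ⨆ y : Set.Icc (2 : ℝ) N, |(primesAP y d a : ℝ) - li y / (Nat.totient d : ℝ)|

/-- The sum of `κ^ν(d) EMax N d (c d)` over the moduli `1 ≤ d ≤ Q` for which `c(d)` is prime to `d`;
`ν(d)` is the number of distinct prime factors of `d`. -/
noncomputable def total (κ : ℝ) (N Q : ℕ) (c : ℕ → ℕ) : ℝ :=
  ∑ d ∈ (Icc 1 Q).filter (fun d => (c d).Coprime d), κ ^ d.primeFactors.card * EMax N d (c d)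

/-- The sum with the weights `m^ν(d)` over the moduli `d ≤ N ^ θ` for the residues `a r(d) + v(d)` is larger than
`N / log ^ m N`. -/
def Fails (m : ℕ) (θ : ℝ) (r v : ℕ → ℕ) (N a : ℕ) : Prop :=
  N / Real.log N ^ m < total m N ⌊(N : ℝ) ^ θ⌋₊ (fun d => a * r d + v d)

/-- For some `m` the sum is too large for the integer part `a = ⌊g_k(x)⌋`, for infinitely many `k` and some `N` with
`a ≤ N ^ m` and `N ≤ m a ^ lam`. -/
def FailsOften (θ lam : ℝ) (g : ℕ → ℝ → ℝ) (r v : ℕ → ℕ → ℕ) (x : ℝ) : Prop :=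
  ∃ m : ℕ, ∃ᶠ k in atTop, ∃ N : ℕ, (⌊g k x⌋₊ : ℝ) ≤ (N : ℝ) ^ m ∧ (N : ℝ) ≤ m * (⌊g k x⌋₊ : ℝ) ^ lam ∧
    Fails m θ (r k) (v k) N ⌊g k x⌋₊

lemma ae_of {θ lam s : ℝ} {E : Set ℝ} {g : ℕ → ℝ → ℝ} {r v : ℕ → ℕ → ℕ} (hs : s < 1)
    (h : dimH {x : ℝ | x ∈ E ∧ FailsOften θ lam g r v x} ≤ ENNReal.ofReal s) :
    ∀ᵐ x : ℝ, x ∈ E → ∀ m : ℕ, ∀ᶠ k in atTop, ∀ N : ℕ, (⌊g k x⌋₊ : ℝ) ≤ (N : ℝ) ^ m →
      (N : ℝ) ≤ m * (⌊g k x⌋₊ : ℝ) ^ lam →
      total m N ⌊(N : ℝ) ^ θ⌋₊ (fun d => ⌊g k x⌋₊ * r k d + v k d) ≤ N / Real.log N ^ m := by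
  have h1 := Pool.Agent.T9h51.MT.null_of_dim _ s hs h
  rw [ae_iff]
  refine measure_mono_null ?_ h1
  intro x hx
  rw [Set.mem_setOf_eq] at hx ⊢
  push Not at hx
  obtain ⟨hxE, m, hm⟩ := hx
  refine ⟨hxE, m, ?_⟩
  refine hm.mono ?_
  rintro k ⟨N, h2, h3, h4⟩
  exact ⟨N, h2, h3, h4⟩

/-- **The weighted level of distribution for integer parts.** Let `1/2 ≤ θ < 1`, `lam > 0`, and for every `k` let `r_k(d)`
(prime to `d`) and `v_k(d)` be arbitrary residues modulo the integers `d` (for instance `r_k(d) = 1`, `v_k(d) = 0`). `Fails`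
for the integer `a`: the sum with the weights `m^ν(d)` over the moduli `d ≤ N ^ θ` of the maxima over the heights `y ≤ N` of
the errors for the residues `a r_k(d) + v_k(d)` is larger than `N / log ^ m N`.

(1) Let `E` be a set of real numbers and `g_k`, `k ≥ 0`, functions with `u_k |x - y| ≤ |g_k x - g_k y|` on `E`, where the
`u_k > 0` are such that the series of the `u_k ^ (-s)` converges for all `s > δ`, `δ ≥ 0`. The `x ∈ E` such that for some
`m`, for infinitely many `k` with `g_k(x) ≥ 0` the integer `a = ⌊g_k(x)⌋` fails for some `N` with `a ≤ N ^ m`,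
`u_k ≤ N ^ m` and `N ≤ m u_k ^ lam` form a set of Hausdorff dimension at most `lam (2 θ - 1) + δ`.

(2) Multiples: the real numbers `x > 0` such that for some `m`, for infinitely many `k` the integer `a = ⌊x u_k⌋` fails for
some `N` with `a ≤ N ^ m` and `N ≤ m a ^ lam` form a set of Hausdorff dimension at most `lam (2 θ - 1) + δ`. If this number
is less than `1` then for almost all `x > 0`, for all `m`, for all large `k` and ALL these `N` the sum is at most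
`N / log ^ m N` (example: `a = ⌊x (k + 1) ^ 2⌋`, `N ≤ m a`, for every `θ < 3/4`).

(3) Powers: the real numbers `x > 1` such that for some `m`, for infinitely many `k` the integer `a = ⌊x ^ k⌋` fails for
some `N` with `a ≤ N ^ m` and `N ≤ m a ^ lam` form a set of Hausdorff dimension at most `lam (2 θ - 1)`. If this number is
less than `1` (for `lam = 1`: for all `θ < 1`) then for almost all `x > 1`, for all `m`, for all large `k` and ALL these `N`
the sum is at most `N / log ^ m N`. -/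
theorem result (θ : ℝ) (hθ1 : 1 / 2 ≤ θ) (hθ2 : θ < 1) (lam : ℝ) (hlam : 0 < lam) (r v : ℕ → ℕ → ℕ)
    (hr : ∀ k d, 1 ≤ d → (r k d).Coprime d) :
    (∀ (u : ℕ → ℝ) (δ : ℝ), (∀ k, 0 < u k) → 0 ≤ δ → (∀ s : ℝ, δ < s → Summable (fun k => u k ^ (-s))) →
      (∀ (E : Set ℝ) (g : ℕ → ℝ → ℝ), (∀ k, ∀ x ∈ E, ∀ y ∈ E, u k * |x - y| ≤ |g k x - g k y|) →
        dimH {x : ℝ | x ∈ E ∧ ∃ m : ℕ, ∃ᶠ k in atTop, 0 ≤ g k x ∧ ∃ N : ℕ, u k ≤ (N : ℝ) ^ m ∧ (N : ℝ) ≤ m * u k ^ lam ∧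
          (⌊g k x⌋₊ : ℝ) ≤ (N : ℝ) ^ m ∧ Fails m θ (r k) (v k) N ⌊g k x⌋₊} ≤ ENNReal.ofReal (lam * (2 * θ - 1) + δ)) ∧
      dimH {x : ℝ | x ∈ Set.Ioi 0 ∧ FailsOften θ lam (fun k x => x * u k) r v x} ≤
        ENNReal.ofReal (lam * (2 * θ - 1) + δ) ∧
      (lam * (2 * θ - 1) + δ < 1 → ∀ᵐ x : ℝ, x ∈ Set.Ioi 0 → ∀ m : ℕ, ∀ᶠ k in atTop, ∀ N : ℕ,
        (⌊x * u k⌋₊ : ℝ) ≤ (N : ℝ) ^ m → (N : ℝ) ≤ m * (⌊x * u k⌋₊ : ℝ) ^ lam →
        total m N ⌊(N : ℝ) ^ θ⌋₊ (fun d => ⌊x * u k⌋₊ * r k d + v k d) ≤ N / Real.log N ^ m)) ∧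
    dimH {x : ℝ | x ∈ Set.Ioi 1 ∧ FailsOften θ lam (fun k x => x ^ k) r v x} ≤ ENNReal.ofReal (lam * (2 * θ - 1)) ∧
    (lam * (2 * θ - 1) < 1 → ∀ᵐ x : ℝ, x ∈ Set.Ioi 1 → ∀ m : ℕ, ∀ᶠ k in atTop, ∀ N : ℕ,
      (⌊x ^ k⌋₊ : ℝ) ≤ (N : ℝ) ^ m → (N : ℝ) ≤ m * (⌊x ^ k⌋₊ : ℝ) ^ lam →
      total m N ⌊(N : ℝ) ^ θ⌋₊ (fun d => ⌊x ^ k⌋₊ * r k d + v k d) ≤ N / Real.log N ^ m) := by
  refine ⟨fun u δ hu hδ hsum => ⟨fun E g hg => ?_, ?_, fun h => ?_⟩, ?_, fun h => ?_⟩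
  · exact Pool.Agent.T9h51.MT.dim_exc θ hθ1 hθ2 E g u hu hg δ hδ hsum lam hlam r v hr
  · exact Pool.Agent.T9h51.MT.dim_mult θ hθ1 hθ2 lam hlam u hu δ hδ hsum r v hr
  · exact ae_of (g := fun k x => x * u k) h (Pool.Agent.T9h51.MT.dim_mult θ hθ1 hθ2 lam hlam u hu δ hδ hsum r v hr)
  · exact Pool.Agent.T9h51.MT.dim_pow θ hθ1 hθ2 lam hlam r v hr
  · exact ae_of (g := fun k x => x ^ k) h (Pool.Agent.T9h51.MT.dim_pow θ hθ1 hθ2 lam hlam r v hr)

end Pool.Agent.Results.MP_188a10_nt.MetricResidues
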