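import Pool.Agent.T9h51.PD.Energy
import Pool.Agent.T9h51.LR.EHw

/-!
# Weighted level of distribution, almost the full range, for the values of polynomials of every degree at integers with
restricted digits

The residues are `a = f(n)`, where `f` is a polynomial of degree `d ≥ 2` and `n` runs through the integers with `k` digits
in base `b` whose digits lie in arbitrary sets of at least two digits, which depend on the place (and on `k`). With
`N = b ^ (d k)` these are as few as `N ^ (log 2 / (d log b))` residues. The starting file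
`Pool.Agent.Results.MP_188a10_nt.QuadraticResidues` treats the quadratic polynomials `c + κ x ^ 2 + β x`.

Here the degree is arbitrary, and the result is uniform in all the coefficients of `f` except for the leading one, which may
grow with `N` (only the values of `f` have to be at most `B N` in absolute value).

The proof uses a Weyl inequality for polynomials of arbitrary degree at integers with restricted digits
(`Pool.Agent.T9h51.PD.weyl_scale`; compare B. Green, Waring's problem with restricted digits, 2023, for `x ^ d` and two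
fixed digits), with the consequence that the additive energy of a high order of such a family is
minimal up to a constant factor (`Pool.Agent.T9h51.PD.energy`). The proof of the inequality is by induction on the
degree: differencing with respect to a short block of digits, at a position which is chosen such that the leading
coefficients of all the differences, multiplied by `b ^ l`, are far from the rational numbers with small denominators;
the case of degree two, the dichotomy for the powers of the base and the passage from the energy to the level of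
distribution are from the starting files (`Pool.Agent.TH872.Sq`, `Pool.Agent.TH212.EH`).

`LevelOfDistribution K B T U N a` (see the definition in `Pool.Agent.T9h51.LR`): the weighted level of distribution of the
primes for the family `a i` of residues, with arbitrary weights up to `(τ(d) log N) ^ T` and with arbitrary heights
`x(d) ≤ B N`, for `d ≤ N / exp (K (log log N) ^ 2)`.
-/

set_option autoImplicit false

namespace Pool.Agent.Results.MP_188a10_nt.PolynomialDigits

open Finset Polynomial
open Pool.Agent.T9h51.LR (LevelOfDistribution level_of_energy)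

/-- The integers below `b ^ k` whose `i`-th digit in base `b` belongs to `D i` for all `i < k`. -/
def S (b : ℕ) (D : ℕ → Finset ℕ) (k : ℕ) : Finset ℕ := (range (b ^ k)).filter (fun n : ℕ => ∀ i < k, n / b ^ i % b ∈ D i)

lemma core (b d B B' T U : ℕ) (hB : B ≤ B') (hb : 2 ≤ b) (hd : 2 ≤ d) (κ : ℤ) (hκ : κ ≠ 0) : ∃ K k₀ : ℕ, ∀ k : ℕ, k₀ ≤ k →
    ∀ D : ℕ → Finset ℕ, (∀ i < k, D i ⊆ range b ∧ 2 ≤ (D i).card) →
    ∀ f : ℤ[X], f.natDegree = d → f.leadingCoeff = κ →
    (∀ n < b ^ k, |f.eval (n : ℤ)| ≤ B' * ((b ^ (d * k) : ℕ) : ℤ)) →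
    LevelOfDistribution K B T U (b ^ (d * k)) (fun n : {n // n ∈ S b D k} => f.eval ((n.1 : ℕ) : ℤ)) := by
  obtain ⟨j, rfl⟩ : ∃ j, d = j + 2 := ⟨d - 2, by omega⟩
  obtain ⟨p, k1, h1⟩ := Pool.Agent.T9h51.PD.energy_hyp b hb j κ hκ
  obtain ⟨K, N₀, h2⟩ := level_of_energy p B B' 1 T U hB
  refine ⟨K, k1 + N₀, fun k hk D hD f hf hκf hval => ?_⟩
  have hN : N₀ ≤ b ^ ((j + 2) * k) := by
    have h3 : k < 2 ^ k := Nat.lt_two_pow_self
    have h4 : 2 ^ k ≤ b ^ k := Nat.pow_le_pow_left hb k
    have h5 : b ^ k ≤ b ^ ((j + 2) * k) := Nat.pow_le_pow_right (by omega) (Nat.le_mul_of_pos_left k (by omega))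
    omega
  refine h2 _ hN {n // n ∈ S b D k} (fun n => f.eval ((n.1 : ℕ) : ℤ)) (fun n => hval n.1 ?_) ?_
  · have := n.2
    unfold S at this
    exact mem_range.1 (mem_filter.1 this).1
  · have hco : f.coeff (j + 2) = κ := by rw [← hκf, leadingCoeff, hf]
    exact h1 k (by omega) D hD f hf.le hco

lemma eval_bound (f : ℤ[X]) (b k n : ℕ) (hb : 1 ≤ b) (hn : n < b ^ k) :
    |f.eval (n : ℤ)| ≤ ((∑ i ∈ range (f.natDegree + 1), (f.coeff i).natAbs : ℕ) : ℤ) * ((b ^ (f.natDegree * k) : ℕ) : ℤ) := by
  rw [eval_eq_sum_range]
  refine (abs_sum_le_sum_abs _ _).trans ?_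
  rw [Nat.cast_sum, sum_mul]
  apply sum_le_sum
  intro i hi
  rw [mem_range] at hi
  rw [abs_mul, Int.abs_eq_natAbs (f.coeff i), abs_of_nonneg (by positivity : (0 : ℤ) ≤ (n : ℤ) ^ i)]
  apply mul_le_mul_of_nonneg_left _ (Int.natCast_nonneg _)
  have h1 : n ^ i ≤ b ^ (f.natDegree * k) := by
    calc n ^ i ≤ (b ^ k) ^ i := Nat.pow_le_pow_left hn.le i
      _ = b ^ (i * k) := by rw [← pow_mul, mul_comm]
      _ ≤ _ := Nat.pow_le_pow_right hb (Nat.mul_le_mul_right _ (by omega))
  exact_mod_cast h1

/-- **Weighted level of distribution for the values of polynomials at integers with restricted digits.**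

(1) Let `b ≥ 2`, `d ≥ 2`, `κ ≠ 0` and `B`, `T`, `U` be fixed. There is a `K` such that for all large `k`, with `N = b ^ (d k)`,
the following holds for ALL sets `D 0, …, D (k - 1)` of at least two digits in base `b` and ALL polynomials `f` with integer
coefficients, of degree `d` and with leading coefficient `κ`, such that `|f(n)| ≤ B N` for all `n < b ^ k`: the primes have the
weighted level of distribution `N / exp (K (log log N) ^ 2)` for the family of the residues `a = f(n)`, where `n` runs
through the integers below `b ^ k` whose `i`-th digit lies in `D i` for all `i < k`.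

(2) In particular, for every fixed polynomial `f` with integer coefficients, of degree at least two, this holds for the
residues `a = c + f(n)`, for ALL integers `c` with `|c| ≤ B N`. -/
theorem result (b B T U : ℕ) (hb : 2 ≤ b) :
    (∀ d : ℕ, 2 ≤ d → ∀ κ : ℤ, κ ≠ 0 → ∃ K k₀ : ℕ, ∀ k : ℕ, k₀ ≤ k → ∀ N : ℕ, N = b ^ (d * k) →
      ∀ D : ℕ → Finset ℕ, (∀ i < k, D i ⊆ range b ∧ 2 ≤ (D i).card) →
      ∀ f : ℤ[X], f.natDegree = d → f.leadingCoeff = κ → (∀ n < b ^ k, |f.eval (n : ℤ)| ≤ B * (N : ℤ)) →
      LevelOfDistribution K B T U N (fun n : {n // n ∈ S b D k} => f.eval ((n.1 : ℕ) : ℤ))) ∧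
    (∀ f : ℤ[X], 2 ≤ f.natDegree → ∃ K k₀ : ℕ, ∀ k : ℕ, k₀ ≤ k → ∀ N : ℕ, N = b ^ (f.natDegree * k) →
      ∀ D : ℕ → Finset ℕ, (∀ i < k, D i ⊆ range b ∧ 2 ≤ (D i).card) → ∀ c : ℤ, |c| ≤ B * (N : ℤ) →
      LevelOfDistribution K B T U N (fun n : {n // n ∈ S b D k} => c + f.eval ((n.1 : ℕ) : ℤ))) := by
  refine ⟨fun d hd κ hκ => ?_, fun f hf => ?_⟩
  · obtain ⟨K, k₀, h⟩ := core b d B B T U le_rfl hb hd κ hκ
    refine ⟨K, k₀, fun k hk N hN D hD f hf hκf hval => ?_⟩
    subst hN
    exact h k hk D hD f hf hκf hval
  · have hf0 : f.leadingCoeff ≠ 0 := by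
      rw [Ne, leadingCoeff_eq_zero]
      rintro rfl
      rw [natDegree_zero] at hf
      omega
    obtain ⟨H, hH⟩ : ∃ H : ℕ, H = ∑ i ∈ range (f.natDegree + 1), (f.coeff i).natAbs := ⟨_, rfl⟩
    obtain ⟨K, k₀, h⟩ := core b f.natDegree B (B + H) T U (Nat.le_add_right _ _) hb hf f.leadingCoeff hf0
    refine ⟨K, k₀, fun k hk N hN D hD c hc => ?_⟩
    subst hN
    have hdeg : (Polynomial.C c + f).natDegree = f.natDegree := natDegree_C_add
    have hlead : (Polynomial.C c + f).leadingCoeff = f.leadingCoeff := by
      rw [leadingCoeff, leadingCoeff, hdeg, coeff_add, coeff_C, if_neg (by omega), zero_add]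
    have key := h k hk D hD (Polynomial.C c + f) hdeg hlead (fun n hn => by
      rw [eval_add, eval_C]
      refine (abs_add_le _ _).trans ?_
      have h1 := eval_bound f b k n (by omega) hn
      rw [← hH] at h1
      push_cast at hc h1 ⊢
      linarith)
    simp only [eval_add, eval_C] at key
    exact key

end Pool.Agent.Results.MP_188a10_nt.PolynomialDigits
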