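import Pool.Agent.T9h59.WL.App

/-!
# The weighted level of distribution beyond one half for all residues near the orders of the subgroups of `F_p^*`

Let `G` be a real sequence with steps bounded below by a positive constant and growth at most `v^d`, `0 ≤ ϑ < 1` and
`0 ≤ γ < 1`, `1/2 ≤ θ < 1`, `lam > 0`, `ρ + lam (2 θ - 1) < (1 - γ) (1 - ϑ) / 2`. For all primes `p ≤ X` but `O(X^(1 - ρ))`: for
ALL subgroups of `F_p^*` which contain an integer `b`, `2 ≤ b ≤ X^γ`, for example those generated by such an integer, with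
the order `w`, for ALL integers `a ≥ 0` with `|a - G w| ≤ w^ϑ` (so for `a = w`) and ALL `N` in the range
`X^(1 / m) ≤ N ≤ X^lam`, the sum over the moduli `q ≤ N^θ` with the weights `κ^ν(q)` of the maxima over `y ≤ N` of
`|π(y; q, c(q)) - li(y)/φ(q)|`, for the residues `c(q) = a r(q) + v(q)`, `r(q)` and `v(q)` arbitrary, `r(q)` prime to `q`, is at
most `N / log^U N`. For `lam = 1`, `ϑ` and `γ` small every level `θ < 3/4` is possible. For the residues `c(q) = a` and the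
levels `θ < 14/27` there is no restriction of `lam`.

The number of the `w` which occur is not restricted, one prime has many subgroups of this kind, and one `w` can occur for
many primes; the proof counts the primes with `p ∣ b ^ w - 1` for small `w`, and the cofactors `(p - 1) / w` for large `w`
(`T9h59/OR`; the sets of exceptional residues depend on `N`). The numbers of the exceptional residues for one `N` are from
the starting files (`N900/WS`, `H442R2/KF`).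
-/

set_option autoImplicit false

namespace Pool.Agent.Results.MP_188a10_nt.SubgroupOrders

open Finset
open Pool.Agent.N733.TG (Expanding expanding_pow)
open Pool.Agent.T9h59.OR (SubOrder subOrder_orderOf)

/-- `π(y; d, a)`: the number of primes `p ≤ y` with `p ≡ a (mod d)` -/
noncomputable def primesAP (y : ℝ) (d a : ℕ) : ℕ :=
  ((Icc 1 ⌊y⌋₊).filter (fun p => p.Prime ∧ p ≡ a [MOD d])).card

/-- `li(y) = ∫_2^y dt / log t` -/
noncomputable def li (y : ℝ) : ℝ := ∫ t in (2 : ℝ)..y, 1 / Real.log t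

/-- the maximum over real `y`, `2 ≤ y ≤ N`, of `|π(y; d, a) - li(y)/φ(d)|` -/
noncomputable def EMax (N d a : ℕ) : ℝ :=
  ⨆ y : Set.Icc (2 : ℝ) N, |(primesAP y d a : ℝ) - li y / (Nat.totient d : ℝ)|

/-- The sum of `κ^ν(d) EMax N d (c d)` over the moduli `1 ≤ d ≤ Q` for which `c(d)` is prime to `d`;
`ν(d)` is the number of distinct prime factors of `d`. -/
noncomputable def total (κ : ℝ) (N Q : ℕ) (c : ℕ → ℕ) : ℝ :=
  ∑ d ∈ (Icc 1 Q).filter (fun d => (c d).Coprime d), κ ^ d.primeFactors.card * EMax N d (c d)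

/-- **The weighted level of distribution for residues near the orders of the subgroups of `F_p^*`.** Let `G` have steps
`≥ α > 0` and growth at most `v ^ d`, `0 ≤ ϑ < 1`, `0 ≤ γ < 1`, `κ ≥ 1` and `lam > 0`.

(1) Let `1/2 ≤ θ < 1` and `ρ + lam (2 θ - 1) < (1 - γ) (1 - ϑ) / 2`. For all systems `r, v` with `r(q)` prime to `q`, for all
primes `p ≤ X` but `C X^(1 - ρ)`, `C` independent of `r, v`: for the order `w` of EVERY subgroup of `F_p^*` which contains an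
integer `b`, `2 ≤ b ≤ X^γ` (`SubOrder (X ^ γ) p w`), ALL integers `a ≥ 0` with `|a - G w| ≤ w ^ ϑ` and ALL `N` with
`X ≤ N ^ m`, `N ≤ X ^ lam` the weighted sum over the moduli `q ≤ N ^ θ` for the residues `a r(q) + v(q)` is at most
`N / log ^ U N`.

(2) For `0 ≤ θ < 14/27`, `ρ < (1 - γ) (1 - ϑ) / 2` and every `lam` the same holds for the residue `a`, `1 ≤ a ≤ N`.

The order of `b` modulo `p` is such a number `w`, and `α v ^ d` with `α > 0`, `d ≥ 1` is an example of `G`. -/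
theorem result :
    (∀ (G : ℕ → ℝ) (d ϑ γ lam κ : ℝ) (U m : ℕ), Expanding G d → 0 ≤ ϑ → ϑ < 1 → 0 ≤ γ → γ < 1 → 0 < lam → 1 ≤ κ →
      (∀ θ ρ : ℝ, 1 / 2 ≤ θ → θ < 1 → ρ + lam * (2 * θ - 1) < (1 - γ) * (1 - ϑ) / 2 → ∃ C : ℝ, ∀ X : ℕ, 1 ≤ X →
        ∀ r v : ℕ → ℕ, (∀ q, 1 ≤ q → (r q).Coprime q) →
        ({p : ℕ | p.Prime ∧ p ≤ X ∧ ¬ ∀ w, SubOrder ((X : ℝ) ^ γ) p w → ∀ a : ℕ, |(a : ℝ) - G w| ≤ (w : ℝ) ^ ϑ →
          ∀ N : ℕ, X ≤ N ^ m → (N : ℝ) ≤ (X : ℝ) ^ lam →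
            total κ N ⌊(N : ℝ) ^ θ⌋₊ (fun q => a * r q + v q) ≤ N / Real.log N ^ U}.ncard : ℝ) ≤ C * (X : ℝ) ^ (1 - ρ)) ∧
      ∀ θ ρ : ℝ, 0 ≤ θ → θ < 14 / 27 → ρ < (1 - γ) * (1 - ϑ) / 2 → ∃ C : ℝ, ∀ X : ℕ, 1 ≤ X →
        ({p : ℕ | p.Prime ∧ p ≤ X ∧ ¬ ∀ w, SubOrder ((X : ℝ) ^ γ) p w → ∀ a : ℕ, |(a : ℝ) - G w| ≤ (w : ℝ) ^ ϑ →
          ∀ N : ℕ, X ≤ N ^ m → (N : ℝ) ≤ (X : ℝ) ^ lam → 1 ≤ a → a ≤ N →
            total κ N ⌊(N : ℝ) ^ θ⌋₊ (fun _ => a) ≤ N / Real.log N ^ U}.ncard : ℝ) ≤ C * (X : ℝ) ^ (1 - ρ)) ∧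
    (∀ (B : ℝ) (p b : ℕ), p.Prime → 2 ≤ b → (b : ℝ) ≤ B → ¬ p ∣ b → SubOrder B p (orderOf (b : ZMod p))) ∧
    ∀ α d : ℝ, 0 < α → 1 ≤ d → Expanding (fun v => α * (v : ℝ) ^ d) d := by
  refine ⟨fun G d ϑ γ lam κ U m hG hϑ0 hϑ1 hγ0 hγ1 hlam hκ => ⟨fun θ ρ hθ1 hθ2 hρ => ?_, fun θ ρ hθ1 hθ2 hρ => ?_⟩,
    fun B p b hp hb hbB hpb => subOrder_orderOf hp hb hbB hpb, fun α d hα hd => expanding_pow hα hd⟩
  · obtain ⟨C, hC⟩ := Pool.Agent.T9h59.WL.systems hG hϑ0 hϑ1 hγ0 hγ1 hθ1 hθ2 hlam hρ κ hκ U m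
    refine ⟨C, fun X hX r v hr => le_trans ?_ (hC X hX r v hr)⟩
    rw [Nat.cast_le]
    refine Set.ncard_le_ncard ?_ ((Set.finite_Icc 0 X).subset (fun p hp => ⟨Nat.zero_le _, hp.2.1⟩))
    rintro p ⟨hp, hpX, hn⟩
    push Not at hn
    exact ⟨hp, hpX, hn⟩
  · obtain ⟨C, hC⟩ := Pool.Agent.T9h59.WL.fixed hG hϑ0 hϑ1 hγ0 hγ1 hθ1 hθ2 hlam hρ κ hκ U m
    refine ⟨C, fun X hX => le_trans ?_ (hC X hX)⟩
    rw [Nat.cast_le]
    refine Set.ncard_le_ncard ?_ ((Set.finite_Icc 0 X).subset (fun p hp => ⟨Nat.zero_le _, hp.2.1⟩))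
    rintro p ⟨hp, hpX, hn⟩
    push Not at hn
    obtain ⟨w, hw, a, hnear, N, hN1, hN2, ha1, haN, hbad⟩ := hn
    refine ⟨hp, hpX, w, hw, a, hnear, N, hN1, hN2, ha1, haN, ?_⟩
    unfold Pool.Agent.T9h51.MT.Bad
    simp only [mul_one, add_zero]
    exact hbad

end Pool.Agent.Results.MP_188a10_nt.SubgroupOrders
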